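import Pool.Agent.H76.GX.Targets

/-!
# GMSNP: labels of equal kind
-/

set_option autoImplicit false

namespace Pool.Agent.H69.GX

open Pool.Agent.H68.BP Pool.Agent.H58.SF Pool.Agent.H53.GC Pool.Agent.H53.GR Pool.Agent.H53.GM
open Pool.Agent.H53.GX Pool.Agent.H76.GX
open Classical

theorem vr_pts {k L : ℕ} (lb : Fin k → Rg L) (e : Finset (Fin k)) : vr (pts lb e) = e := by
  unfold vr pts
  rw [Finset.image_image]
  exact Finset.image_id

theorem pts_congr {k L : ℕ} {lb lb' : Fin k → Rg L} {s : Finset (Fin k)}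
    (h : ∀ v ∈ s, lb v = lb' v) : pts (lbx lb) (ps s) = pts (lbx lb') (ps s) := by
  unfold pts
  refine Finset.image_congr ?_
  intro w hw
  unfold ps at hw
  rw [Finset.mem_coe, Finset.mem_image] at hw
  obtain ⟨v, hv, rfl⟩ := hw
  have h1 : ∀ f : Fin k → Rg L, lbx f (Fin.castAdd k v) = f v := fun f => by
    unfold lbx
    exact Fin.addCases_left v
  change (Fin.castAdd k v, lbx lb (Fin.castAdd k v)) = (Fin.castAdd k v, lbx lb' (Fin.castAdd k v))
  rw [h1, h1, h v hv]

theorem pf_LCL : Pool.Agent.H76.GX.T_LCL := by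
  intro τ N k L F I a₀ e c c' _ hc hc' hE i
  have hs : e \ c.1 = e \ c'.1 := by
    ext v
    rw [Finset.mem_sdiff, Finset.mem_sdiff]
    constructor
    · rintro ⟨h1, h2⟩
      exact ⟨h1, fun h3 => h2 ((hE.sS v h1).2 h3)⟩
    · rintro ⟨h1, h2⟩
      exact ⟨h1, fun h3 => h2 ((hE.sS v h1).1 h3)⟩
  have hk := hE.sk
  unfold gs
  rw [← hs] at hk ⊢
  set s : Finset (Fin k) := e \ c.1 with hsdef
  have hl : ∀ v ∈ s, c.2.2.1 v = c'.2.2.1 v := by
    intro v hv
    rw [hsdef, Finset.mem_sdiff] at hv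
    exact hE.sl v hv.1 hv.2
  unfold kdx kd at hk
  rw [← pts_congr hl] at hk
  rcases s.eq_empty_or_nonempty with h0 | h0
  · refine ⟨i, ?_⟩
    rw [h0]
    have h1 : ps (∅ : Finset (Fin k)) ∪ cst I = cst I := by
      unfold ps
      rw [Finset.image_empty, Finset.empty_union]
    rw [h1, (hc.mx i).2, (hc'.mx i).2]
  · obtain ⟨v₀, hv₀⟩ := h0
    set α := pts (lbx c.2.2.1) (ps s) with hα
    have hv : vr α = ps s := vr_pts _ _
    have hmem : ∀ v ∈ s, (Fin.castAdd k v, c.2.2.1 v) ∈ α := by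
      intro v hv
      rw [hα]
      unfold pts ps
      simp only [Finset.mem_image]
      refine ⟨Fin.castAdd k v, ⟨v, hv, rfl⟩, ?_⟩
      unfold lbx
      rw [Fin.addCases_left]
    have hne : α ≠ ∅ := by
      intro h1
      have h2 := hmem v₀ hv₀
      rw [h1] at h2
      exact absurd h2 (Finset.notMem_empty _)
    unfold rsG at hk
    rw [if_neg hne, if_neg hne, Prod.mk.injEq] at hk
    obtain ⟨hk1, hk2⟩ := hk
    by_cases hA : AS α
    · have hZ : ¬ AZ α := by
        intro hZ
        have h2 := hZ.2 _ (hmem v₀ hv₀)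
        have h3 := hA.2 _ (hmem v₀ hv₀)
        rw [h2] at h3
        exact absurd h3 (by simp)
      rw [if_neg hZ, if_neg hZ, hv] at hk2
      rcases hc'.bin with h1 | ⟨P, P', h1⟩
      · exfalso
        have h3 := hA.2 _ (hmem v₀ hv₀)
        have h4 : c.2.2.1 v₀ = some none := h3
        rw [hl v₀ hv₀, h1 v₀] at h4
        exact absurd h4 (by simp)
      · have h2 : c'.2.2.2 i = P ∨ c'.2.2.2 i = P' := by
          rw [h1, pat_eq_ite]
          split_ifs
          · exact Or.inl rfl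
          · exact Or.inr rfl
        obtain ⟨h3, h4⟩ := pat_ix c'.2.1 P P'
        rcases h2 with h2 | h2
        · refine ⟨ix c.2.1 0, ?_⟩
          have h5 := congrFun hk2 0
          rw [h2, ← h3, ← h1]
          exact h5
        · refine ⟨ix c.2.1 1, ?_⟩
          have h5 := congrFun hk2 1
          rw [h2, ← h4, ← h1]
          exact h5
    · rw [if_neg hA, if_neg hA, hv] at hk1
      exact ⟨i, congrFun hk1 i⟩

end Pool.Agent.H69.GX
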